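import Pool.Agent.helper75.IQ.Spec

/-!
Row iq:EQF (MP_84f457_gt): the region is a vertical translate of the ball.
-/

set_option autoImplicit false

namespace Pool.Agent.helper75.IQ

open MeasureTheory Set

lemma EQF_cont : Continuous fun p : Sp => nq (pr p) := by
  unfold nq pr; fun_prop

lemma EQF_nn (p : Sp) : 0 ≤ nq (pr p) := by unfold nq; positivity

lemma EQF_null (R : ℝ) : volume {p : Sp | nq (pr p) = R ^ 2} = 0 := by
  have hm : MeasurableSet {p : Sp | nq (pr p) = R ^ 2} :=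
    (isClosed_eq EQF_cont continuous_const).measurableSet
  rw [Measure.volume_eq_prod, Measure.measure_prod_null hm]
  refine Filter.Eventually.of_forall fun x => ?_
  have h2 : (Prod.mk x ⁻¹' {p : Sp | nq (pr p) = R ^ 2})
      = {y : ℝ | x ^ 2 + y ^ 2 = R ^ 2} ×ˢ (univ : Set ℝ) := by
    ext ⟨y, t⟩
    simp [nq, pr]
  show volume (Prod.mk x ⁻¹' {p : Sp | nq (pr p) = R ^ 2}) = 0
  rw [h2, Measure.volume_eq_prod, Measure.prod_prod]
  have h3 : volume {y : ℝ | x ^ 2 + y ^ 2 = R ^ 2} = 0 := by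
    have hsub : {y : ℝ | x ^ 2 + y ^ 2 = R ^ 2} ⊆ {√(R ^ 2 - x ^ 2), -√(R ^ 2 - x ^ 2)} := by
      intro y hy
      have hy' : x ^ 2 + y ^ 2 = R ^ 2 := hy
      have e : R ^ 2 - x ^ 2 = y ^ 2 := by linarith
      rw [e, Real.sqrt_sq_eq_abs]
      rcases abs_choice y with h | h
      · left; exact h.symm
      · right
        show y = -|y|
        rw [h, neg_neg]
    exact measure_mono_null hsub (Set.Finite.measure_zero (Set.toFinite _) volume)
  rw [h3, zero_mul]

lemma EQF_mp (c : ℝ) : MeasurePreserving (sh c) volume volume := by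
  exact (MeasurePreserving.id (volume : Measure ℝ)).prod
    ((MeasurePreserving.id (volume : Measure ℝ)).prod
      (measurePreserving_add_right (volume : Measure ℝ) c))

lemma EQF_sh_eq (c : ℝ) : sh c = (Homeomorph.addRight ((0, 0, c) : Sp) : Sp → Sp) := by
  funext p
  obtain ⟨x, y, t⟩ := p
  simp [sh]

lemma EQF_vol_sh (κ c : ℝ) (A : Set Sp) : vol κ (sh c ⁻¹' A) = vol κ A := by
  have h2 : MeasurableEmbedding (sh c) := by
    rw [EQF_sh_eq]
    exact (Homeomorph.addRight ((0, 0, c) : Sp)).measurableEmbedding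
  exact (EQF_mp c).setLIntegral_comp_preimage_emb h2
    (fun p => ENNReal.ofReal (lam κ (nq (pr p)) ^ 2)) A

lemma EQF_meas (κ : ℝ) : Measurable fun p : Sp => ENNReal.ofReal (lam κ (nq (pr p)) ^ 2) := by
  have h : Measurable fun p : Sp => nq (pr p) := EQF_cont.measurable
  have h2 : Measurable fun p : Sp => lam κ (nq (pr p)) := by
    unfold lam
    exact ((h.const_mul (κ / 4)).const_add 1).inv
  exact (h2.pow_const 2).ennreal_ofReal

lemma EQF_lam {κ R : ℝ} (hκ : κ ≤ 0) (hR : -4 < κ * R ^ 2) {w : ℝ} (hw : w ≤ R ^ 2) :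
    0 < 1 + κ / 4 * R ^ 2 ∧ 1 + κ / 4 * R ^ 2 ≤ 1 + κ / 4 * w := by
  constructor
  · linarith
  · have := mul_le_mul_of_nonpos_left hw (show κ / 4 ≤ 0 by linarith)
    linarith

lemma EQF_pos {κ R : ℝ} (hκ : κ ≤ 0) (hR : -4 < κ * R ^ 2) {A : Set Sp} (hA : IsOpen A)
    (hne : A.Nonempty) (hsub : ∀ p ∈ A, nq (pr p) < R ^ 2) : 0 < vol κ A := by
  unfold vol
  rw [setLIntegral_pos_iff (EQF_meas κ)]
  have e : (Function.support fun p : Sp => ENNReal.ofReal (lam κ (nq (pr p)) ^ 2)) ∩ A = A := by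
    refine inter_eq_right.2 fun p hp => ?_
    have h1 := EQF_lam hκ hR (hsub p hp).le
    have h2 : 0 < lam κ (nq (pr p)) := by
      unfold lam
      exact inv_pos.2 (lt_of_lt_of_le h1.1 h1.2)
    rw [Function.mem_support]
    exact (ENNReal.ofReal_pos.2 (by positivity)).ne'
  rw [e]
  exact hA.measure_pos volume hne

lemma EQF_fin {κ R : ℝ} (hκ : κ ≤ 0) (hR : -4 < κ * R ^ 2) {A : Set Sp} (hA : IsCompact A)
    (hsub : ∀ p ∈ A, nq (pr p) ≤ R ^ 2) : vol κ A ≠ ⊤ := by
  have h : vol κ A ≤ ∫⁻ _ in A, ENNReal.ofReal (((1 + κ / 4 * R ^ 2)⁻¹) ^ 2) := by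
    refine setLIntegral_mono' hA.measurableSet fun p hp => ENNReal.ofReal_le_ofReal ?_
    have h1 := EQF_lam hκ hR (hsub p hp)
    have h2 : lam κ (nq (pr p)) ≤ (1 + κ / 4 * R ^ 2)⁻¹ := by
      unfold lam
      exact inv_anti₀ h1.1 h1.2
    have h3 : 0 ≤ lam κ (nq (pr p)) := by
      unfold lam
      exact inv_nonneg.2 (h1.1.le.trans h1.2)
    exact pow_le_pow_left₀ h3 h2 2
  refine (lt_of_le_of_lt h ?_).ne
  rw [setLIntegral_const]
  exact ENNReal.mul_lt_top ENNReal.ofReal_lt_top hA.measure_lt_top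

/-- interior points of subsets of the closed cylinder are in the open cylinder -/
lemma EQF_int {R : ℝ} (hR : 0 < R) {A : Set Sp} (hsub : ∀ p ∈ A, nq (pr p) ≤ R ^ 2) {p : Sp}
    (hp : p ∈ interior A) : nq (pr p) < R ^ 2 := by
  by_contra hcon
  have hcon' : R ^ 2 ≤ nq (pr p) := not_lt.1 hcon
  let f : ℝ → Sp := fun s => (s * p.1, s * p.2.1, p.2.2)
  have hf : Continuous f := by fun_prop
  have h1 : f 1 = p := by simp [f]
  have hO : IsOpen (f ⁻¹' interior A) := isOpen_interior.preimage hf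
  have hmem : (1 : ℝ) ∈ f ⁻¹' interior A := by
    show f 1 ∈ interior A
    rw [h1]; exact hp
  obtain ⟨ε, hε, hball⟩ := Metric.isOpen_iff.1 hO 1 hmem
  have h2 : (1 + ε / 2) ∈ f ⁻¹' interior A := by
    apply hball
    rw [Metric.mem_ball, Real.dist_eq]
    rw [show 1 + ε / 2 - 1 = ε / 2 by ring, abs_of_pos (by linarith)]
    linarith
  have h3 := hsub _ (interior_subset h2)
  have h4 : nq (pr (f (1 + ε / 2))) = (1 + ε / 2) ^ 2 * nq (pr p) := by
    simp only [f, nq, pr]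
    ring
  rw [h4] at h3
  have h5 : 0 < R ^ 2 := by positivity
  nlinarith [mul_pos hε (lt_of_lt_of_le h5 hcon'), mul_pos (mul_pos hε hε) (lt_of_lt_of_le h5 hcon')]

theorem EQF (hHGT : HGT_stmt) (hBAL : BAL_stmt) : EQF_stmt := by
  intro κ τ R m E hκ hE hT hvol hfill
  have hR := hT.r0
  have hk := hT.rk
  obtain ⟨-, hu0, hucont, hupos, -, -⟩ := hHGT κ τ R hκ hR hk
  obtain ⟨hBreg, -⟩ := hBAL κ τ R hκ hR hk
  obtain ⟨c₁, h1⟩ := hfill 1 (Or.inl rfl)
  obtain ⟨c₂, h2⟩ := hfill (-1) (Or.inr rfl)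
  have hup : ∀ p : Sp, nq (pr p) < R ^ 2 → 0 < hgt κ τ R (nq (pr p)) := fun p hp =>
    hupos _ (EQF_nn p) hp
  -- the shape of `E` up to null sets
  have hae : ∀ᵐ p : Sp, nq (pr p) < R ^ 2 →
      (p ∈ E ↔ -hgt κ τ R (nq (pr p)) - c₂ < p.2.2 ∧ p.2.2 < hgt κ τ R (nq (pr p)) + c₁) := by
    filter_upwards [h1, h2] with p hp1 hp2 hp
    have a1 := hp1 hp
    have a2 := hp2 hp
    constructor
    · intro hpE
      have b1 := a1.1 ⟨hp, Or.inr hpE⟩
      have b2 := a2.1 ⟨hp, Or.inr hpE⟩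
      constructor <;> linarith
    · rintro ⟨b1, b2⟩
      obtain ⟨-, d1⟩ := a1.2 (by linarith)
      obtain ⟨-, d2⟩ := a2.2 (by linarith)
      rcases d1 with d1 | d1
      · rcases d2 with d2 | d2
        · have e : p.2.2 = m (pr p) := by linarith
          have := interior_subset (hT.sec (pr p) hp)
          have e2 : (((pr p).1, (pr p).2, m (pr p)) : Sp) = p := by
            rw [← e]; rfl
          rwa [e2] at this
        · exact d2
      · exact d1
  have hne : ∀ᵐ p : Sp, nq (pr p) ≠ R ^ 2 := by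
    rw [ae_iff]
    simpa using EQF_null R
  -- continuity of the height
  have hOp : IsOpen {p : Sp | nq (pr p) < R ^ 2} := isOpen_lt EQF_cont continuous_const
  have hgc : ContinuousOn (fun p : Sp => hgt κ τ R (nq (pr p))) {p : Sp | nq (pr p) < R ^ 2} :=
    hucont.comp EQF_cont.continuousOn fun p hp => Set.mem_Iic.2 (le_of_lt hp)
  have hg1 : ContinuousOn (fun p : Sp => p.2.2 - hgt κ τ R (nq (pr p)))
      {p : Sp | nq (pr p) < R ^ 2} := (by fun_prop : Continuous fun p : Sp => p.2.2).continuousOn.sub hgc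
  have hg2 : ContinuousOn (fun p : Sp => p.2.2 + hgt κ τ R (nq (pr p)))
      {p : Sp | nq (pr p) < R ^ 2} := (by fun_prop : Continuous fun p : Sp => p.2.2).continuousOn.add hgc
  have hBm : MeasurableSet (ball κ τ R) := hBreg.1.measurableSet
  have hBsub : ∀ p ∈ ball κ τ R, nq (pr p) ≤ R ^ 2 := fun p hp => hp.1
  have hBfin : vol κ (ball κ τ R) ≠ ⊤ := EQF_fin hκ hk hBreg.1 hBsub
  -- the centred region
  have hshift : vol κ (sh ((c₁ - c₂) / 2) ⁻¹' E) = vol κ (ball κ τ R) := by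
    rw [EQF_vol_sh, hvol]
  have hae2 : ∀ᵐ p : Sp, nq (pr p) < R ^ 2 → (p ∈ sh ((c₁ - c₂) / 2) ⁻¹' E ↔
      -hgt κ τ R (nq (pr p)) - (c₁ + c₂) / 2 < p.2.2 ∧
        p.2.2 < hgt κ τ R (nq (pr p)) + (c₁ + c₂) / 2) := by
    have h := (EQF_mp ((c₁ - c₂) / 2)).quasiMeasurePreserving.ae hae
    filter_upwards [h] with p hp hq
    have hq' : nq (pr (sh ((c₁ - c₂) / 2) p)) < R ^ 2 := hq
    have a := hp hq'
    have e1 : nq (pr (sh ((c₁ - c₂) / 2) p)) = nq (pr p) := rfl
    have e2 : (sh ((c₁ - c₂) / 2) p).2.2 = p.2.2 + (c₁ - c₂) / 2 := rfl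
    rw [e1, e2] at a
    show sh ((c₁ - c₂) / 2) p ∈ E ↔ _
    rw [a]
    constructor
    · rintro ⟨b1, b2⟩; constructor <;> linarith
    · rintro ⟨b1, b2⟩; constructor <;> linarith
  have hd : c₁ + c₂ = 0 := by
    rcases lt_trichotomy (c₁ + c₂) 0 with hd | hd | hd
    · exfalso
      let A : Set Sp := {p | nq (pr p) < R ^ 2 ∧ p.2.2 < hgt κ τ R (nq (pr p)) + (c₁ + c₂) / 2 ∧
        -hgt κ τ R (nq (pr p)) - (c₁ + c₂) / 2 < p.2.2}
      let U : Set Sp := ({p : Sp | nq (pr p) < R ^ 2} ∩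
        (fun p : Sp => p.2.2 - hgt κ τ R (nq (pr p))) ⁻¹' (Ioo ((c₁ + c₂) / 2) 0)) ∩
        ({p : Sp | nq (pr p) < R ^ 2} ∩
        (fun p : Sp => p.2.2 + hgt κ τ R (nq (pr p))) ⁻¹' (Ioi 0))
      have hUo : IsOpen U := (hg1.isOpen_inter_preimage hOp isOpen_Ioo).inter
        (hg2.isOpen_inter_preimage hOp isOpen_Ioi)
      have hUn : U.Nonempty := by
        have h0 : nq (pr ((0, 0, 0) : Sp)) < R ^ 2 := by
          have : 0 < R ^ 2 := by positivity
          simpa [nq, pr] using this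
        have h00 := hup _ h0
        have e0 : nq (pr ((0, 0, 0) : Sp)) = 0 := by simp [nq, pr]
        rw [e0] at h00 h0
        obtain ⟨t, ht1, ht2⟩ := exists_between (max_lt (show -hgt κ τ R 0 < hgt κ τ R 0 by linarith)
          (show hgt κ τ R 0 + (c₁ + c₂) / 2 < hgt κ τ R 0 by linarith))
        rw [max_lt_iff] at ht1
        have et : nq (pr ((0, 0, t) : Sp)) = 0 := by simp [nq, pr]
        refine ⟨(0, 0, t), ⟨?_, ?_⟩, ?_, ?_⟩
        · show nq (pr ((0, 0, t) : Sp)) < R ^ 2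
          rw [et]; exact h0
        · show t - hgt κ τ R (nq (pr ((0, 0, t) : Sp))) ∈ Ioo ((c₁ + c₂) / 2) 0
          rw [et]; constructor <;> linarith
        · show nq (pr ((0, 0, t) : Sp)) < R ^ 2
          rw [et]; exact h0
        · show t + hgt κ τ R (nq (pr ((0, 0, t) : Sp))) ∈ Ioi 0
          rw [et, mem_Ioi]; linarith
      have hUpos := EQF_pos hκ hk hUo hUn (fun p hp => hp.1.1)
      have hle1 : vol κ (sh ((c₁ - c₂) / 2) ⁻¹' E) ≤ vol κ A := by
        refine lintegral_mono_set' ?_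
        filter_upwards [hae2, hne] with p hp hq hpE
        have hc : nq (pr p) ≤ R ^ 2 :=
          hT.cyl (sh ((c₁ - c₂) / 2) p) (show sh ((c₁ - c₂) / 2) p ∈ E from hpE)
        have hlt : nq (pr p) < R ^ 2 := lt_of_le_of_ne hc hq
        obtain ⟨b1, b2⟩ := (hp hlt).1 hpE
        exact ⟨hlt, b2, b1⟩
      have hdis : Disjoint A U := by
        rw [Set.disjoint_left]
        rintro p ⟨-, a2, -⟩ ⟨⟨-, b⟩, -⟩
        have b1 : (c₁ + c₂) / 2 < p.2.2 - hgt κ τ R (nq (pr p)) := b.1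
        linarith
      have hsub : A ∪ U ⊆ ball κ τ R := by
        rintro p (⟨a1, a2, a3⟩ | ⟨⟨a1, a2⟩, -, a3⟩)
        · refine ⟨a1.le, abs_le.2 ⟨?_, ?_⟩⟩ <;> linarith
        · have b2 : p.2.2 - hgt κ τ R (nq (pr p)) < 0 := a2.2
          have b3 : 0 < p.2.2 + hgt κ τ R (nq (pr p)) := a3
          refine ⟨le_of_lt a1, abs_le.2 ⟨?_, ?_⟩⟩ <;> linarith
      have hadd : vol κ A + vol κ U ≤ vol κ (ball κ τ R) := by
        unfold vol
        rw [← lintegral_union hUo.measurableSet hdis]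
        exact lintegral_mono_set hsub
      have hfinal : vol κ (ball κ τ R) + vol κ U ≤ vol κ (ball κ τ R) + 0 := by
        rw [add_zero]
        calc vol κ (ball κ τ R) + vol κ U = vol κ (sh ((c₁ - c₂) / 2) ⁻¹' E) + vol κ U := by
              rw [hshift]
          _ ≤ vol κ A + vol κ U := by gcongr
          _ ≤ vol κ (ball κ τ R) := hadd
      have := (ENNReal.add_le_add_iff_left hBfin).1 hfinal
      exact absurd this (not_le.2 hUpos)
    · exact hd
    · exfalso
      let U : Set Sp := {p : Sp | nq (pr p) < R ^ 2} ∩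
        (fun p : Sp => p.2.2 - hgt κ τ R (nq (pr p))) ⁻¹' (Ioo 0 ((c₁ + c₂) / 2))
      have hUo : IsOpen U := hg1.isOpen_inter_preimage hOp isOpen_Ioo
      have hUn : U.Nonempty := by
        have et : ∀ t, nq (pr ((0, 0, t) : Sp)) = 0 := fun t => by simp [nq, pr]
        refine ⟨(0, 0, hgt κ τ R 0 + (c₁ + c₂) / 4), ?_, ?_⟩
        · show nq (pr ((0, 0, _) : Sp)) < R ^ 2
          rw [et]; positivity
        · show hgt κ τ R 0 + (c₁ + c₂) / 4 - hgt κ τ R (nq (pr ((0, 0, _) : Sp))) ∈ Ioo 0 ((c₁ + c₂) / 2)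
          rw [et]; constructor <;> linarith
      have hUpos := EQF_pos hκ hk hUo hUn (fun p hp => hp.1)
      have hdis : Disjoint (ball κ τ R) U := by
        rw [Set.disjoint_left]
        rintro p ⟨-, a2⟩ ⟨-, b⟩
        have b1 : 0 < p.2.2 - hgt κ τ R (nq (pr p)) := b.1
        have := (abs_le.1 a2).2
        linarith
      have hle : vol κ (ball κ τ R ∪ U) ≤ vol κ (sh ((c₁ - c₂) / 2) ⁻¹' E) := by
        refine lintegral_mono_set' ?_
        filter_upwards [hae2, hne] with p hp hq hpB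
        rcases hpB with hpB | hpB
        · have hlt : nq (pr p) < R ^ 2 := lt_of_le_of_ne hpB.1 hq
          have a := abs_le.1 hpB.2
          exact (hp hlt).2 ⟨by linarith [a.1], by linarith [a.2]⟩
        · have hlt : nq (pr p) < R ^ 2 := hpB.1
          have b1 : 0 < p.2.2 - hgt κ τ R (nq (pr p)) := hpB.2.1
          have b2 : p.2.2 - hgt κ τ R (nq (pr p)) < (c₁ + c₂) / 2 := hpB.2.2
          have := hup p hlt
          exact (hp hlt).2 ⟨by linarith, by linarith⟩
      have hfinal : vol κ (ball κ τ R) + vol κ U ≤ vol κ (ball κ τ R) + 0 := by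
        rw [add_zero]
        calc vol κ (ball κ τ R) + vol κ U = vol κ (ball κ τ R ∪ U) := by
              unfold vol
              rw [lintegral_union hUo.measurableSet hdis]
          _ ≤ vol κ (sh ((c₁ - c₂) / 2) ⁻¹' E) := hle
          _ = vol κ (ball κ τ R) := hshift
      have := (ENNReal.add_le_add_iff_left hBfin).1 hfinal
      exact absurd this (not_le.2 hUpos)
  -- the end
  have hB : IsCompact (sh c₁ '' ball κ τ R) := by
    refine hBreg.1.image ?_
    rw [EQF_sh_eq]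
    exact (Homeomorph.addRight ((0, 0, c₁) : Sp)).continuous
  have hBr : closure (interior (sh c₁ '' ball κ τ R)) = sh c₁ '' ball κ τ R := by
    rw [EQF_sh_eq, ← Homeomorph.image_interior, ← Homeomorph.image_closure, hBreg.2]
  have hBmem : ∀ p : Sp, p ∈ sh c₁ '' ball κ τ R ↔
      nq (pr p) ≤ R ^ 2 ∧ p.2.2 ∈ Icc (c₁ - hgt κ τ R (nq (pr p))) (c₁ + hgt κ τ R (nq (pr p))) := by
    intro p
    constructor
    · rintro ⟨q, ⟨hq1, hq2⟩, rfl⟩
      have a := abs_le.1 hq2
      refine ⟨hq1, ?_, ?_⟩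
      · show c₁ - hgt κ τ R (nq (pr q)) ≤ q.2.2 + c₁
        linarith [a.1]
      · show q.2.2 + c₁ ≤ c₁ + hgt κ τ R (nq (pr q))
        linarith [a.2]
    · rintro ⟨hp1, hp2, hp3⟩
      refine ⟨(p.1, p.2.1, p.2.2 - c₁), ⟨hp1, ?_⟩, ?_⟩
      · show |p.2.2 - c₁| ≤ hgt κ τ R (nq (pr p))
        rw [abs_le]; constructor <;> linarith
      · show (p.1, p.2.1, p.2.2 - c₁ + c₁) = p
        rw [sub_add_cancel]
  refine ⟨c₁, Set.Subset.antisymm ?_ ?_⟩
  · have hsub : interior E ⊆ sh c₁ '' ball κ τ R := by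
      intro p hp
      by_contra hcon
      have hO : IsOpen (interior E ∩ (sh c₁ '' ball κ τ R)ᶜ) :=
        isOpen_interior.inter hB.isClosed.isOpen_compl
      refine (hO.measure_pos volume ⟨p, hp, hcon⟩).ne' ?_
      rw [← nonpos_iff_eq_zero]
      refine (measure_mono_null (t := {p : Sp | ¬ (nq (pr p) < R ^ 2 → (p ∈ E ↔
        -hgt κ τ R (nq (pr p)) - c₂ < p.2.2 ∧ p.2.2 < hgt κ τ R (nq (pr p)) + c₁))}) ?_ ?_).le
      · rintro q ⟨hq1, hq2⟩ hq3
        have hlt : nq (pr q) < R ^ 2 := EQF_int hR hT.cyl hq1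
        obtain ⟨b1, b2⟩ := (hq3 hlt).1 (interior_subset hq1)
        refine hq2 ((hBmem q).2 ⟨hlt.le, ?_, ?_⟩) <;> linarith
      · exact ae_iff.1 hae
    calc E = closure (interior E) := hE.2.symm
      _ ⊆ closure (sh c₁ '' ball κ τ R) := closure_mono hsub
      _ = sh c₁ '' ball κ τ R := hB.isClosed.closure_eq
  · have hsub : interior (sh c₁ '' ball κ τ R) ⊆ E := by
      intro p hp
      by_contra hcon
      have hO : IsOpen (interior (sh c₁ '' ball κ τ R) ∩ Eᶜ) :=
        isOpen_interior.inter hE.1.isClosed.isOpen_compl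
      refine (hO.measure_pos volume ⟨p, hp, hcon⟩).ne' ?_
      rw [← nonpos_iff_eq_zero]
      refine (measure_mono_null (t := {p : Sp | ¬ (nq (pr p) < R ^ 2 → (p ∈ E ↔
        -hgt κ τ R (nq (pr p)) - c₂ < p.2.2 ∧ p.2.2 < hgt κ τ R (nq (pr p)) + c₁))}) ?_ ?_).le
      · rintro q ⟨hq1, hq2⟩ hq3
        have hlt : nq (pr q) < R ^ 2 :=
          EQF_int hR (fun p hp => ((hBmem p).1 hp).1) hq1
        let f : ℝ → Sp := fun t => (q.1, q.2.1, t)
        have hf : Continuous f := by fun_prop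
        have hOf : IsOpen (f ⁻¹' interior (sh c₁ '' ball κ τ R)) := isOpen_interior.preimage hf
        have hfs : f ⁻¹' interior (sh c₁ '' ball κ τ R) ⊆
            Icc (c₁ - hgt κ τ R (nq (pr q))) (c₁ + hgt κ τ R (nq (pr q))) := by
          intro t ht
          exact ((hBmem (f t)).1 (interior_subset ht)).2
        have hin := interior_maximal hfs hOf (show q.2.2 ∈ _ from hq1)
        rw [interior_Icc] at hin
        exact hq2 ((hq3 hlt).2 ⟨by linarith [hin.1], by linarith [hin.2]⟩)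
      · exact ae_iff.1 hae
    calc sh c₁ '' ball κ τ R = closure (interior (sh c₁ '' ball κ τ R)) := hBr.symm
      _ ⊆ closure E := closure_mono hsub
      _ = E := hE.1.isClosed.closure_eq

end Pool.Agent.helper75.IQ
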